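import Pool.Agent.L7h19.RP.Stm6

/-!
# Project RP (helper19): the largest unlinked set that avoids the inactive types
-/

set_option autoImplicit false

namespace Pool.Agent.L7h97.RP

open Finset Pool.Agent.W262.RK Pool.Agent.L7h19.RJ Pool.Agent.L7h19.RP
open Pool.Agent.W125.RK2 (T z0 sing Lt)

variable {ι : Type} [Fintype ι] [DecidableEq ι] {J : Type} [Fintype J] [DecidableEq J]

/-- the three nonzero types of a class -/
def tx (c : Fin 4) : T := (ec c, (false, false))
def ty (c : Fin 4) : T := ((false, false), (ec c).swap)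
def td (c : Fin 4) : T := (ec c, (ec c).swap)

/-- the indicators -/
def bi (S : Finset T) (t : T) : Bool := decide (t ∈ S)
def ri (S : Finset T) (t : T) : ℝ := if t ∈ S then 1 else 0

lemma ri_nonneg (S : Finset T) (t : T) : 0 ≤ ri S t := by unfold ri; split_ifs <;> norm_num
lemma ri_le (S : Finset T) (t : T) : ri S t ≤ 1 := by unfold ri; split_ifs <;> norm_num

lemma lk_xy : ∀ c c' : Fin 4, c ≠ 3 → c' ≠ 3 → Lt (tx c) (ty c') = Lt (ty c') (tx c) → c = c' := by
  decide
lemma lk_xd : ∀ c c' : Fin 4, c ≠ 3 → c' ≠ 3 → Lt (tx c) (td c') = Lt (td c') (tx c) → c = c' := by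
  decide
lemma lk_yd : ∀ c c' : Fin 4, c ≠ 3 → c' ≠ 3 → Lt (ty c) (td c') = Lt (td c') (ty c) → c = c' := by
  decide

/-- the lines of the grid -/
lemma lines (S : Finset T) (hS : ∀ t ∈ S, ∀ t' ∈ S, Lt t t' = Lt t' t) :
    (∀ c : Fin 4, c ≠ 3 → ty c ∉ S ∧ td c ∉ S) ∨ (∀ c : Fin 4, c ≠ 3 → tx c ∉ S ∧ td c ∉ S) ∨
    (∀ c : Fin 4, c ≠ 3 → tx c ∉ S ∧ ty c ∉ S) ∨
    ∃ c₀ : Fin 4, c₀ ≠ 3 ∧ ∀ c : Fin 4, c ≠ 3 → c ≠ c₀ → tx c ∉ S ∧ ty c ∉ S ∧ td c ∉ S := by
  have hxy : ∀ c c' : Fin 4, c ≠ 3 → c' ≠ 3 → tx c ∈ S → ty c' ∈ S → c = c' :=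
    fun c c' h h' h1 h2 => lk_xy c c' h h' (hS _ h1 _ h2)
  have hxd : ∀ c c' : Fin 4, c ≠ 3 → c' ≠ 3 → tx c ∈ S → td c' ∈ S → c = c' :=
    fun c c' h h' h1 h2 => lk_xd c c' h h' (hS _ h1 _ h2)
  have hyd : ∀ c c' : Fin 4, c ≠ 3 → c' ≠ 3 → ty c ∈ S → td c' ∈ S → c = c' :=
    fun c c' h h' h1 h2 => lk_yd c c' h h' (hS _ h1 _ h2)
  by_cases h1 : ∃ c : Fin 4, c ≠ 3 ∧ tx c ∈ S
  · obtain ⟨c, hc, hxc⟩ := h1
    by_cases h2 : ∃ c : Fin 4, c ≠ 3 ∧ (ty c ∈ S ∨ td c ∈ S)
    · right; right; right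
      obtain ⟨c', hc', h3⟩ := h2
      have e : c = c' := by
        rcases h3 with h3 | h3
        · exact hxy c c' hc hc' hxc h3
        · exact hxd c c' hc hc' hxc h3
      subst e
      refine ⟨c, hc, fun k hk hkc => ⟨fun h => ?_, fun h => hkc (hxy c k hc hk hxc h).symm,
        fun h => hkc (hxd c k hc hk hxc h).symm⟩⟩
      rcases h3 with h3 | h3
      · exact hkc (hxy k c hk hc h h3)
      · exact hkc (hxd k c hk hc h h3)
    · left
      push Not at h2
      exact h2
  · push Not at h1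
    by_cases h2 : ∃ c : Fin 4, c ≠ 3 ∧ ty c ∈ S
    · obtain ⟨c, hc, hyc⟩ := h2
      by_cases h3 : ∃ c : Fin 4, c ≠ 3 ∧ td c ∈ S
      · right; right; right
        obtain ⟨c', hc', h3⟩ := h3
        have e : c = c' := hyd c c' hc hc' hyc h3
        subst e
        exact ⟨c, hc, fun k hk hkc => ⟨h1 k hk, fun h => hkc (hyd k c hk hc h h3),
          fun h => hkc (hyd c k hc hk hyc h).symm⟩⟩
      · push Not at h3
        right; left
        exact fun k hk => ⟨h1 k hk, h3 k hk⟩
    · push Not at h2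
      right; right; left
      exact fun k hk => ⟨h1 k hk, h2 k hk⟩

/-- the inequality for one curve -/
lemma one_curve (S : Finset T) (hS : ∀ t ∈ S, ∀ t' ∈ S, Lt t t' = Lt t' t) (n q : Fin 4 → ℝ)
    (hq : ∀ c, 0 ≤ q c) (hqn : ∀ c, q c ≤ n c)
    (h0 : n 0 + q 0 ≤ n 1 + n 2) (h1 : n 1 + q 1 ≤ n 0 + n 2) (h2 : n 2 + q 2 ≤ n 0 + n 1) :
    (n 0 * ((1 + ri S (tx 0) + ri S (ty 0)) / 2) + q 0 * (ri S (td 0) / 2)) +
    (n 1 * ((1 + ri S (tx 1) + ri S (ty 1)) / 2) + q 1 * (ri S (td 1) / 2)) +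
    (n 2 * ((1 + ri S (tx 2) + ri S (ty 2)) / 2) + q 2 * (ri S (td 2) / 2)) ≤ n 0 + n 1 + n 2 := by
  have z : ∀ {t : T}, t ∉ S → ri S t = 0 := fun h => by unfold ri; rw [if_neg h]
  have nn : ∀ c, 0 ≤ n c := fun c => (hq c).trans (hqn c)
  have m1 : ∀ c t, n c * ri S t ≤ n c := fun c t => mul_le_of_le_one_right (nn c) (ri_le S t)
  have m2 : ∀ c t, q c * ri S t ≤ q c := fun c t => mul_le_of_le_one_right (hq c) (ri_le S t)
  rcases lines S hS with h | h | h | ⟨c₀, hc₀, h⟩
  · rw [z (h 0 (by decide)).1, z (h 1 (by decide)).1, z (h 2 (by decide)).1,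
      z (h 0 (by decide)).2, z (h 1 (by decide)).2, z (h 2 (by decide)).2]
    have := m1 0 (tx 0)
    have := m1 1 (tx 1)
    have := m1 2 (tx 2)
    linarith
  · rw [z (h 0 (by decide)).1, z (h 1 (by decide)).1, z (h 2 (by decide)).1,
      z (h 0 (by decide)).2, z (h 1 (by decide)).2, z (h 2 (by decide)).2]
    have := m1 0 (ty 0)
    have := m1 1 (ty 1)
    have := m1 2 (ty 2)
    linarith
  · rw [z (h 0 (by decide)).1, z (h 1 (by decide)).1, z (h 2 (by decide)).1,
      z (h 0 (by decide)).2, z (h 1 (by decide)).2, z (h 2 (by decide)).2]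
    have := m2 0 (td 0)
    have := m2 1 (td 1)
    have := m2 2 (td 2)
    have := hqn 0
    have := hqn 1
    have := hqn 2
    linarith
  · have key : ∀ c : Fin 4, c ≠ 3 → c = 0 ∨ c = 1 ∨ c = 2 := by decide
    have hcs := key c₀ hc₀
    rcases hcs with rfl | rfl | rfl
    · obtain ⟨a1, a2, a3⟩ := h 1 (by decide) (by decide)
      obtain ⟨b1, b2, b3⟩ := h 2 (by decide) (by decide)
      rw [z a1, z a2, z a3, z b1, z b2, z b3]
      have := m1 0 (tx 0)
      have := m1 0 (ty 0)
      have := m2 0 (td 0)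
      linarith
    · obtain ⟨a1, a2, a3⟩ := h 0 (by decide) (by decide)
      obtain ⟨b1, b2, b3⟩ := h 2 (by decide) (by decide)
      rw [z a1, z a2, z a3, z b1, z b2, z b3]
      have := m1 1 (tx 1)
      have := m1 1 (ty 1)
      have := m2 1 (td 1)
      linarith
    · obtain ⟨a1, a2, a3⟩ := h 0 (by decide) (by decide)
      obtain ⟨b1, b2, b3⟩ := h 1 (by decide) (by decide)
      rw [z a1, z a2, z a3, z b1, z b2, z b3]
      have := m1 2 (tx 2)
      have := m1 2 (ty 2)
      have := m2 2 (td 2)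
      linarith

/-- the types of `Si` are unlinked -/
lemma Si_unl {cls : ι → J → Option (Fin 4)}
    (h1 : ∀ i j, cls i j ≠ none → cls i j ≠ some 3 → ∀ i', i' ≠ i → cls i' j = none)
    {U : Finset (IJ cls)} (hU : ∀ a ∈ U, ∀ a' ∈ U, LJ cls a a' = LJ cls a' a) (i : ι) :
    ∀ t ∈ Si cls U i, ∀ t' ∈ Si cls U i, Lt t t' = Lt t' t := by
  classical
  intro t ht t' ht'
  unfold Si at ht ht'
  obtain ⟨a, ha, rfl⟩ := mem_image.1 ht
  obtain ⟨b, hb, rfl⟩ := mem_image.1 ht'
  have h2 : ∀ a ∈ U.filter (fun a => ∃ c, c ≠ 3 ∧ cls i a.1.1 = some c), ∀ i', i' ≠ i →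
      a.1.2.1 i' = (false, false) ∧ a.1.2.2 i' = (false, false) := by
    intro a ha i' hi'
    obtain ⟨c, hc, hc2⟩ := (mem_filter.1 ha).2
    have h3 := h1 i a.1.1 (by rw [hc2]; simp) (by rw [hc2]; simpa using hc) i' hi'
    have h4 := al_of a i'
    rw [h3] at h4
    exact Al0_none h4
  have h3 := hU a (mem_filter.1 ha).1 b (mem_filter.1 hb).1
  unfold Pool.Agent.L7h19.RJ.LJ at h3
  rw [PR_single i _ _ (fun i' hi' => Or.inl (h2 a ha i' hi').1),
    PR_single i _ _ (fun i' hi' => Or.inl (h2 b hb i' hi').1)] at h3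
  exact h3

lemma Al0_cases {c : Fin 4} (hc : c ≠ 3) {v x : Bool × Bool} (h : Al0 (some c) v x = true) :
    (v = (false, false) ∨ v = ec c) ∧ (x = (false, false) ∨ x = (ec c).swap) := by
  unfold Al0 at h
  simp only [if_neg hc, Bool.and_eq_true, Bool.or_eq_true, decide_eq_true_eq] at h
  exact h

lemma ec_ne : ∀ c : Fin 4, ec c ≠ (false, false) := by decide
lemma ecs_ne : ∀ c : Fin 4, (ec c).swap ≠ (false, false) := by decide

/-- the weight of a form that belongs to one curve only -/
lemma fib_two {cls : ι → J → Option (Fin 4)} {Q : Finset J}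
    (h1 : ∀ i j, cls i j ≠ none → cls i j ≠ some 3 → ∀ i', i' ≠ i → cls i' j = none)
    {U : Finset (IJ cls)} (hQ : ∀ a ∈ U, ¬ NIJ cls Q a) {j : J} {i : ι} {c : Fin 4} (hc : c ≠ 3)
    (hj : cls i j = some c) :
    ∑ a ∈ U.filter (fun a => a.1.1 = j), wJ cls a ≤
      (1 + ri (Si cls U i) (tx c) + ri (Si cls U i) (ty c)) / 2 +
        (if j ∈ Q then ri (Si cls U i) (td c) / 2 else 0) := by
  classical
  have hn : ∀ i', i' ≠ i → cls i' j = none :=
    h1 i j (by rw [hj]; simp) (by rw [hj]; simpa using hc)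
  have hw : ∀ a ∈ U.filter (fun a => a.1.1 = j), wJ cls a = 1 / 2 := by
    intro a ha
    unfold wJ
    rw [(mem_filter.1 ha).2, Finset.prod_eq_single i]
    · rw [hj]
      simp [wo, hc]
    · intro i' _ hi'
      rw [hn i' hi']
      rfl
    · intro h
      exact absurd (mem_univ i) h
  have hz : ∀ a ∈ U.filter (fun a => a.1.1 = j), ∀ i', i' ≠ i →
      a.1.2.1 i' = (false, false) ∧ a.1.2.2 i' = (false, false) := by
    intro a ha i' hi'
    have h4 := al_of a i'
    rw [(mem_filter.1 ha).2, hn i' hi'] at h4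
    exact Al0_none h4
  set S := Si cls U i with hS
  set R : Finset T := (({z0} : Finset T) ∪ (if tx c ∈ S then {tx c} else ∅)) ∪
    (if ty c ∈ S then {ty c} else ∅) ∪ (if j ∈ Q then (if td c ∈ S then {td c} else ∅) else ∅)
    with hR
  have hcard : (U.filter (fun a => a.1.1 = j)).card ≤ R.card := by
    apply Finset.card_le_card_of_injOn (fun a : IJ cls => ((a.1.2.1 i, a.1.2.2 i) : T))
    · intro a ha
      rw [mem_coe] at ha
      have haj := (mem_filter.1 ha).2
      have haU := (mem_filter.1 ha).1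
      have hmem : ((a.1.2.1 i, a.1.2.2 i) : T) ∈ S := by
        rw [hS]
        unfold Si
        refine mem_image_of_mem _ (mem_filter.2 ⟨haU, c, hc, ?_⟩)
        rw [haj, hj]
      have h4 := al_of a i
      rw [haj, hj] at h4
      obtain ⟨h5, h6⟩ := Al0_cases hc h4
      rw [mem_coe, hR]
      simp only [mem_union]
      rcases h5 with h5 | h5 <;> rcases h6 with h6 | h6 <;> rw [h5, h6] at hmem ⊢
      · exact Or.inl (Or.inl (Or.inl (mem_singleton.2 rfl)))
      · refine Or.inl (Or.inr ?_)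
        rw [if_pos (show ty c ∈ S from hmem)]
        exact mem_singleton.2 rfl
      · refine Or.inl (Or.inl (Or.inr ?_))
        rw [if_pos (show tx c ∈ S from hmem)]
        exact mem_singleton.2 rfl
      · refine Or.inr ?_
        have h7 : j ∈ Q := by
          by_contra hjQ
          apply hQ a haU
          refine ⟨by rw [haj]; exact hjQ, i, ?_, ?_, ?_, ?_⟩
          · rw [haj, hj]; simp
          · rw [haj, hj]; simpa using hc
          · rw [h5]; exact ec_ne c
          · rw [h6]; exact ecs_ne c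
        rw [if_pos h7, if_pos (show td c ∈ S from hmem)]
        exact mem_singleton.2 rfl
    · intro a ha b hb h
      rw [mem_coe] at ha hb
      apply Subtype.ext
      refine Prod.ext ((mem_filter.1 ha).2.trans (mem_filter.1 hb).2.symm) (Prod.ext ?_ ?_)
      · funext i'
        by_cases hi : i' = i
        · rw [hi]
          exact congrArg Prod.fst h
        · rw [(hz a ha i' hi).1, (hz b hb i' hi).1]
      · funext i'
        by_cases hi : i' = i
        · rw [hi]
          exact congrArg Prod.snd h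
        · rw [(hz a ha i' hi).2, (hz b hb i' hi).2]
  have hcr : ∀ t : T, (((if t ∈ S then {t} else ∅ : Finset T)).card : ℝ) = ri S t := by
    intro t
    unfold ri
    split_ifs <;> simp
  have hRc : (R.card : ℝ) ≤ 1 + ri S (tx c) + ri S (ty c) + (if j ∈ Q then ri S (td c) else 0) := by
    have e1 : R.card ≤ ((1 + (if tx c ∈ S then {tx c} else ∅ : Finset T).card) +
        (if ty c ∈ S then {ty c} else ∅ : Finset T).card) +
        (if j ∈ Q then (if td c ∈ S then {td c} else ∅) else ∅ : Finset T).card := by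
      rw [hR]
      refine (card_union_le _ _).trans (Nat.add_le_add_right ((card_union_le _ _).trans
        (Nat.add_le_add_right ((card_union_le _ _).trans ?_) _)) _)
      rw [card_singleton]
    have e2 : (R.card : ℝ) ≤ ((1 + ((if tx c ∈ S then {tx c} else ∅ : Finset T).card : ℝ)) +
        ((if ty c ∈ S then {ty c} else ∅ : Finset T).card : ℝ)) +
        ((if j ∈ Q then (if td c ∈ S then {td c} else ∅) else ∅ : Finset T).card : ℝ) := by
      exact_mod_cast e1
    rw [hcr, hcr] at e2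
    refine e2.trans (le_of_eq ?_)
    congr 1
    by_cases h : j ∈ Q
    · rw [if_pos h, if_pos h, hcr]
    · rw [if_neg h, if_neg h]
      simp
  rw [Finset.sum_congr rfl hw, Finset.sum_const, nsmul_eq_mul]
  have h2 : ((U.filter (fun a => a.1.1 = j)).card : ℝ) ≤ (R.card : ℝ) := by exact_mod_cast hcard
  have h3 : (if j ∈ Q then ri S (td c) / 2 else 0) = (if j ∈ Q then ri S (td c) else 0) / 2 := by
    split_ifs <;> simp
  rw [h3]
  linarith

/-- the inactive types are unlinked -/
lemma nij_unl {cls : ι → J → Option (Fin 4)} {Q : Finset J}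
    (h1 : ∀ i j, cls i j ≠ none → cls i j ≠ some 3 → ∀ i', i' ≠ i → cls i' j = none)
    (a a' : IJ cls) (ha : NIJ cls Q a) (ha' : NIJ cls Q a') : LJ cls a a' = LJ cls a' a := by
  classical
  have key : ∀ a : IJ cls, NIJ cls Q a → ∃ (i : ι) (c : Fin 4), c ≠ 3 ∧ a.1.2.1 i = ec c ∧
      a.1.2.2 i = (ec c).swap ∧ ∀ i', i' ≠ i → a.1.2.1 i' = (false, false) ∧
        a.1.2.2 i' = (false, false) := by
    intro a ha
    obtain ⟨-, i, hn, h3, hv, hx⟩ := ha
    obtain ⟨c, hc⟩ := Option.ne_none_iff_exists'.1 hn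
    have hc3 : c ≠ 3 := fun h => h3 (by rw [hc, h])
    have h4 := al_of a i
    rw [hc] at h4
    obtain ⟨h5, h6⟩ := Al0_cases hc3 h4
    refine ⟨i, c, hc3, h5.resolve_left hv, h6.resolve_left hx, fun i' hi' => ?_⟩
    have h7 := h1 i a.1.1 hn h3 i' hi'
    have h8 := al_of a i'
    rw [h7] at h8
    exact Al0_none h8
  obtain ⟨i, c, hc, e1, e2, e3⟩ := key a ha
  obtain ⟨i', c', hc', f1, f2, f3⟩ := key a' ha'
  unfold Pool.Agent.L7h19.RJ.LJ
  rw [PR_single i _ _ (fun k hk => Or.inl (e3 k hk).1),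
    PR_single i _ _ (fun k hk => Or.inr (e3 k hk).2)]
  by_cases hi : i = i'
  · subst hi
    rw [e1, e2, f1, f2]
    have : ∀ c c' : Fin 4, pr (ec c) (ec c').swap = pr (ec c') (ec c).swap := by decide
    exact this c c'
  · rw [(f3 i hi).1, (f3 i hi).2]
    simp [pr]

theorem stComb : StComb := by
  intro ι _ _ J _ _ cls Q h1 h3
  classical
  refine ⟨fun a a' ha ha' => nij_unl h1 a a' ha ha', ?_⟩
  intro U hQ hU
  set C3 : Finset (Fin 4) := univ.filter (fun c => c ≠ 3) with hC3
  have eC3 : C3 = {0, 1, 2} := by rw [hC3]; decide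
  have sum3 : ∀ f : Fin 4 → ℝ, ∑ c ∈ C3, f c = f 0 + f 1 + f 2 := by
    intro f
    rw [eC3, Finset.sum_insert (by decide), Finset.sum_insert (by decide), Finset.sum_singleton,
      add_assoc]
  set n : ι → Fin 4 → ℝ := fun i c => ((univ.filter (fun j => cls i j = some c)).card : ℝ) with hn
  set q : ι → Fin 4 → ℝ := fun i c => ((Q.filter (fun j => cls i j = some c)).card : ℝ) with hq
  set g : ι → Fin 4 → ℝ := fun i c =>
    (1 + ri (Si cls U i) (tx c) + ri (Si cls U i) (ty c)) / 2 with hg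
  set d : ι → Fin 4 → ℝ := fun i c => ri (Si cls U i) (td c) / 2 with hd
  set A : J → Prop := fun j => ∀ i, cls i j = none ∨ cls i j = some 3 with hA
  have hg0 : ∀ i c, 0 ≤ g i c := fun i c => by
    have := ri_nonneg (Si cls U i) (tx c)
    have := ri_nonneg (Si cls U i) (ty c)
    simp only [hg]
    linarith
  have hd0 : ∀ i c, 0 ≤ d i c := fun i c => by
    have := ri_nonneg (Si cls U i) (td c)
    simp only [hd]
    linarith
  have hgs : ∀ i, ∑ c ∈ C3, (n i c * g i c + q i c * d i c) ≤ n i 0 + n i 1 + n i 2 := by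
    intro i
    rw [sum3]
    have hex : ∀ c : Fin 4, c ≠ 3 → ∀ c1 c2 : Fin 4, (∀ c' : Fin 4, c' ≠ 3 → c' ≠ c → c' = c1 ∨ c' = c2) →
        n i c + q i c ≤ n i c1 + n i c2 := by
      intro c hc c1 c2 h12
      have h4 := h3 i c hc
      have h5 : (univ.filter (fun j => ∃ c' : Fin 4, c' ≠ 3 ∧ c' ≠ c ∧ cls i j = some c')).card ≤
          (univ.filter (fun j => cls i j = some c1)).card +
          (univ.filter (fun j => cls i j = some c2)).card := by
        refine le_trans (card_le_card ?_) (card_union_le _ _)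
        intro j hj
        rw [mem_filter] at hj
        obtain ⟨-, c', hc', hc'', e⟩ := hj
        rw [mem_union, mem_filter, mem_filter]
        rcases h12 c' hc' hc'' with rfl | rfl
        · exact Or.inl ⟨mem_univ _, e⟩
        · exact Or.inr ⟨mem_univ _, e⟩
      simp only [hn, hq]
      exact_mod_cast h4.trans h5
    refine one_curve (Si cls U i) (Si_unl h1 hU i) (n i) (q i) (fun c => Nat.cast_nonneg _)
      (fun c => ?_) (hex 0 (by decide) 1 2 (by decide)) (hex 1 (by decide) 0 2 (by decide))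
      (hex 2 (by decide) 0 1 (by decide))
    simp only [hn, hq]
    exact_mod_cast card_le_card (filter_subset_filter _ (subset_univ Q))
  have hfib : ∀ j, ∑ a ∈ U.filter (fun a => a.1.1 = j), wJ cls a ≤
      (if A j then 1 else 0) + ∑ i, ∑ c ∈ C3, if cls i j = some c then
        (g i c + if j ∈ Q then d i c else 0) else 0 := by
    intro j
    have hnn0 : ∀ i c, 0 ≤ (if cls i j = some c then
        (g i c + if j ∈ Q then d i c else 0) else 0) := by
      intro i c
      have := hg0 i c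
      have := hd0 i c
      split_ifs <;> linarith
    have hnn : 0 ≤ ∑ i, ∑ c ∈ C3, (if cls i j = some c then
        (g i c + if j ∈ Q then d i c else 0) else 0) :=
      Finset.sum_nonneg fun i _ => Finset.sum_nonneg fun c _ => hnn0 i c
    by_cases hj : A j
    · rw [if_pos hj]
      have := fib_tw hU hj
      linarith
    · rw [if_neg hj, zero_add]
      simp only [hA] at hj
      push Not at hj
      obtain ⟨i, hi1, hi2⟩ := hj
      obtain ⟨c, hc⟩ := Option.ne_none_iff_exists'.1 hi1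
      have hc3 : c ≠ 3 := fun h => hi2 (by rw [hc, h])
      have h5 : (g i c + if j ∈ Q then d i c else 0) ≤ ∑ c ∈ C3, (if cls i j = some c then
          (g i c + if j ∈ Q then d i c else 0) else 0) := by
        have h6 := Finset.single_le_sum (f := fun c => if cls i j = some c then
          (g i c + if j ∈ Q then d i c else 0) else 0)
          (s := C3) (fun c _ => hnn0 i c) (a := c)
          (mem_filter.2 ⟨mem_univ _, hc3⟩)
        simp only [hc, if_true] at h6
        simpa only [hc] using h6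
      refine (fib_two h1 hQ hc3 hc).trans (h5.trans ?_)
      exact Finset.single_le_sum (f := fun i => ∑ c ∈ C3, if cls i j = some c then
          (g i c + if j ∈ Q then d i c else 0) else 0)
        (fun i _ => Finset.sum_nonneg fun c _ => hnn0 i c) (mem_univ i)
  have hsum : ∑ a ∈ U, wJ cls a ≤ ∑ j, ((if A j then (1 : ℝ) else 0) +
      ∑ i, ∑ c ∈ C3, if cls i j = some c then (g i c + if j ∈ Q then d i c else 0) else 0) := by
    rw [← Finset.sum_fiberwise (s := U) (g := fun a : IJ cls => a.1.1)]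
    exact Finset.sum_le_sum fun j _ => hfib j
  refine hsum.trans ?_
  rw [Finset.sum_add_distrib]
  have e1 : ∑ j, ∑ i, ∑ c ∈ C3, (if cls i j = some c then
      (g i c + if j ∈ Q then d i c else 0) else 0) =
      ∑ i, ∑ c ∈ C3, (n i c * g i c + q i c * d i c) := by
    rw [Finset.sum_comm]
    refine Finset.sum_congr rfl fun i _ => ?_
    rw [Finset.sum_comm]
    refine Finset.sum_congr rfl fun c hc => ?_
    have e2 : ∀ j, (if cls i j = some c then (g i c + if j ∈ Q then d i c else 0) else 0) =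
        (if cls i j = some c then g i c else 0) +
        (if j ∈ Q then (if cls i j = some c then d i c else 0) else 0) := by
      intro j
      split_ifs <;> simp
    rw [Finset.sum_congr rfl fun j _ => e2 j, Finset.sum_add_distrib, ← Finset.sum_filter,
      Finset.sum_const, nsmul_eq_mul, Finset.sum_ite_mem, univ_inter, ← Finset.sum_filter,
      Finset.sum_const, nsmul_eq_mul]
  have e2 : ∑ i, ∑ c ∈ C3, (n i c * g i c + q i c * d i c) ≤ ∑ i, (n i 0 + n i 1 + n i 2) :=
    Finset.sum_le_sum fun i _ => hgs i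
  have e3 : ∑ i, (n i 0 + n i 1 + n i 2) =
      ∑ j, ∑ i, ∑ c ∈ C3, (if cls i j = some c then (1 : ℝ) else 0) := by
    rw [Finset.sum_comm]
    refine Finset.sum_congr rfl fun i _ => ?_
    rw [Finset.sum_comm, sum3]
    simp only [hn, ← Finset.sum_filter, Finset.sum_const, nsmul_eq_mul, mul_one]
  have e6 : ∀ j, (if A j then (1 : ℝ) else 0) +
      ∑ i, ∑ c ∈ C3, (if cls i j = some c then (1 : ℝ) else 0) ≤ 1 := by
    intro j
    by_cases hj : A j
    · rw [if_pos hj]
      have : ∑ i, ∑ c ∈ C3, (if cls i j = some c then (1 : ℝ) else 0) = 0 := by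
        refine Finset.sum_eq_zero fun i _ => Finset.sum_eq_zero fun c hc => ?_
        have hc3 := (mem_filter.1 hc).2
        rw [if_neg]
        intro h
        rcases hj i with h4 | h4 <;> rw [h] at h4
        · exact absurd h4 (by simp)
        · exact hc3 (by simpa using h4)
      rw [this, add_zero]
    · rw [if_neg hj, zero_add]
      simp only [hA] at hj
      push Not at hj
      obtain ⟨i, hi1, hi2⟩ := hj
      obtain ⟨c, hc⟩ := Option.ne_none_iff_exists'.1 hi1
      have hn := h1 i j hi1 hi2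
      rw [Finset.sum_eq_single i]
      · rw [hc]
        have : ∀ c' ∈ C3, (if (some c : Option (Fin 4)) = some c' then (1 : ℝ) else 0) =
            if c' = c then 1 else 0 := by
          intro c' _
          simp [eq_comm]
        rw [Finset.sum_congr rfl this, Finset.sum_ite_eq']
        split_ifs <;> norm_num
      · intro i' _ hi'
        rw [hn i' hi']
        simp
      · intro h
        exact absurd (mem_univ i) h
  calc ∑ j, (if A j then (1 : ℝ) else 0) +
        ∑ j, ∑ i, ∑ c ∈ C3, (if cls i j = some c then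
          (g i c + if j ∈ Q then d i c else 0) else 0)
      ≤ ∑ j, (if A j then (1 : ℝ) else 0) +
        ∑ j, ∑ i, ∑ c ∈ C3, (if cls i j = some c then (1 : ℝ) else 0) := by
        rw [e1]
        linarith
    _ = ∑ j, ((if A j then (1 : ℝ) else 0) +
        ∑ i, ∑ c ∈ C3, (if cls i j = some c then (1 : ℝ) else 0)) := by
        rw [Finset.sum_add_distrib]
    _ ≤ ∑ _j : J, (1 : ℝ) := Finset.sum_le_sum fun j _ => e6 j
    _ = Fintype.card J := by simp

end Pool.Agent.L7h97.RP
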