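import Mathlib
import Pool.Agent.L7h19.RP.Stm7
import Pool.Agent.L7h89.RP.StRank
import Pool.Agent.W262.RK.AT2

/-!
# Project RP, statement StCrude: the trivial bound for `2 ^ rank`
-/

set_option autoImplicit false

namespace Pool.Agent.L7h97.RP

open Finset Pool.Agent.W262.RK Pool.Agent.W307.RT Pool.Agent.L7h19.RJ Pool.Agent.L7h19.RP

lemma NL_le (m : ℕ) (hm : Squarefree m) (L : ℕ → Bool → Bool → Bool → Bool → Prop) :
    NL m L ≤ 4 ^ m.primeFactors.card := by
  classical
  have h1 : NL m L ≤ (m.divisors ×ˢ m.divisors).card := by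
    unfold NL
    exact card_filter_le _ _
  have h2 : m.divisors.card = 2 ^ m.primeFactors.card := by
    rw [Nat.card_divisors hm.ne_zero]
    rw [prod_congr rfl (g := fun _ => 2)]
    · simp
    · intro p hp
      have h3 : m.factorization p = 1 := by
        have h4 := (Nat.squarefree_iff_factorization_le_one hm.ne_zero).1 hm p
        have h5 : m.factorization p ≠ 0 := by
          rw [← Finsupp.mem_support_iff, Nat.support_factorization]
          exact hp
        omega
      rw [h3]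
  rw [card_product, h2, ← mul_pow] at h1
  simpa using h1

theorem stCrude : StCrude := by
  classical
  intro J _ _ c a z1 D ε ha hε
  obtain ⟨z0, hz0⟩ := exists_nat_ge
    (Real.exp (((D * Fintype.card J + 1 : ℕ) : ℝ) * Real.log 16 / ε))
  set N : ℕ := D * Fintype.card J + 1 with hN
  set z : ℕ := max (max 2 z1) (max z0 (∑ k, (a k).natAbs)) with hz
  have hz2 : 2 ≤ z := le_trans (le_max_left _ _) (le_max_left _ _)
  have hzz1 : z1 ≤ z := le_trans (le_max_right _ _) (le_max_left _ _)
  have hzz0 : z0 ≤ z := le_trans (le_max_left _ _) (le_max_right _ _)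
  have hza : ∑ k, (a k).natAbs ≤ z := le_trans (le_max_right _ _) (le_max_right _ _)
  refine ⟨4 ^ (z + 2) * 4 ^ (D * Fintype.card J), ?_⟩
  intro x X hX hG hrel hbd
  have hGz : Gd z x := ⟨hG.1, fun p hp hzp => hG.2 p hp (lt_of_le_of_lt hzz1 hzp)⟩
  have ha' : ∀ p : ℕ, p.Prime → z < p → ∀ k, ¬ (p : ℤ) ∣ a k := by
    intro p hp hzp k hk
    have h1 : p ≤ (a k).natAbs :=
      Nat.le_of_dvd (Int.natAbs_pos.2 (ha k)) (Int.natCast_dvd.1 hk)
    have h2 : (a k).natAbs ≤ ∑ k, (a k).natAbs :=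
      single_le_sum (f := fun k => (a k).natAbs) (fun _ _ => Nat.zero_le _) (mem_univ k)
    omega
  set E : Finset ℕ := (PS z X).filter
    (fun p => ∃ j, c j = some 3 ∧ p ∣ S1 z X x j ∧ jacobiSym (x j / p) p = -1) with hE
  have hE2 : ∀ j p, c j = some 3 → p.Prime → p ∣ S1 z X x j →
      (p ∈ E ↔ jacobiSym (x j / p) p = -1) := by
    intro j p hj hp hd
    rw [hE, mem_filter]
    constructor
    · rintro ⟨_, l, _, hl2, hl3⟩
      have := Pool.Agent.L7h89.RP.S1_uniq hGz hp hd hl2
      rw [this] at hl3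
      exact hl3
    · intro h
      exact ⟨((Pool.Agent.L7h89.RP.S1_dvd_iff hp).1 hd).1, j, hj, hd, h⟩
  have hR := Pool.Agent.L7h89.RP.stRank J c a x z X X 1 D hz2 hGz ha ha' hrel hbd hX hX
    (by simp) E hE2
  -- the sets of large primes
  set T : J → Finset ℕ := fun j => (PS z X).filter (fun p => (p : ℤ) ∣ x j) with hT
  have hTp : ∀ j, ∀ p ∈ T j, p.Prime := fun j p hp =>
    (mem_filter.1 (mem_filter.1 hp).1).2
  have hTz : ∀ j, ∀ p ∈ T j, z ≤ p := fun j p hp =>
    (mem_Ioc.1 (mem_filter.1 (mem_filter.1 hp).1).1).1.le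
  have hT1 : ∀ j, z ^ (T j).card ≤ X ^ D := by
    intro j
    have h1 : z ^ (T j).card ≤ ∏ p ∈ T j, p := by
      rw [← prod_const]
      exact prod_le_prod' (hTz j)
    have h2 : ∏ p ∈ T j, p ∣ (x j).natAbs := by
      apply Finset.prod_primes_dvd
      · exact fun p hp => (hTp j p hp).prime
      · exact fun p hp => Int.natCast_dvd.1 (mem_filter.1 hp).2
    exact h1.trans ((Nat.le_of_dvd (Int.natAbs_pos.2 (hG.1 j)) h2).trans (hbd j))
  set t : ℕ := ∑ j, (T j).card with ht
  have hT2 : z ^ t ≤ X ^ (D * Fintype.card J) := by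
    rw [ht, ← prod_pow_eq_pow_sum, pow_mul]
    calc ∏ j, z ^ (T j).card ≤ ∏ _j : J, X ^ D := prod_le_prod' fun j _ => hT1 j
      _ = (X ^ D) ^ Fintype.card J := by simp
  have hS2 : ∑ j, (S2 z X x j).primeFactors.card ≤ t := by
    apply sum_le_sum
    intro j _
    apply card_le_card
    intro p hp
    have hpp := Nat.prime_of_mem_primeFactors hp
    have hd := Nat.dvd_of_mem_primeFactors hp
    unfold S2 at hd
    rw [prime_dvd_prodS (fun q hq => (mem_PS.1 (mem_filter.1 hq).1).2) hpp, mem_filter] at hd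
    exact mem_filter.2 ⟨hd.1, (dvd_pow_self _ two_ne_zero).trans hd.2⟩
  have hsq : Squarefree (∏ j, S1 z X x j) := by
    apply Pool.Agent.W262.RK.AT.squarefree_prod
    · intro j _
      exact Pool.Agent.L7h89.RP.S1_sqf j
    · intro j _ l _ hjl
      rw [Nat.coprime_iff_gcd_eq_one]
      by_contra hne
      obtain ⟨p, hp, hpd⟩ := Nat.exists_prime_and_dvd hne
      exact hjl (Pool.Agent.L7h89.RP.S1_uniq hGz hp (hpd.trans (Nat.gcd_dvd_left _ _))
        (hpd.trans (Nat.gcd_dvd_right _ _))).symm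
  have hω : (∏ j, S1 z X x j).primeFactors.card ≤ t := by
    refine le_trans (card_le_card (t := univ.biUnion T) ?_) card_biUnion_le
    intro p hp
    have hpp := Nat.prime_of_mem_primeFactors hp
    have hd := Nat.dvd_of_mem_primeFactors hp
    obtain ⟨j, _, hj⟩ := (Prime.dvd_finsetProd_iff hpp.prime _).1 hd
    have h3 := (Pool.Agent.L7h89.RP.S1_dvd_iff hpp).1 hj
    exact mem_biUnion.2 ⟨j, mem_univ _, mem_filter.2 ⟨h3.1, h3.2.1⟩⟩
  have hNL := NL_le _ hsq (LLso c (kapV c a x) (S1 z X x) E)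
  have h16 : (4 : ℕ) ^ (∑ j, (S2 z X x j).primeFactors.card) *
      NL (∏ j, S1 z X x j) (LLso c (kapV c a x) (S1 z X x) E) ≤ 16 ^ t := by
    calc _ ≤ 4 ^ t * 4 ^ t := by
          apply Nat.mul_le_mul
          · exact Nat.pow_le_pow_right (by norm_num) hS2
          · exact hNL.trans (Nat.pow_le_pow_right (by norm_num) hω)
      _ = 16 ^ t := by rw [← mul_pow]; norm_num
  have hX0 : (0 : ℝ) < X := by exact_mod_cast hX
  have hlog : (16 : ℝ) ^ t ≤ (X : ℝ) ^ ε := by
    have hl16 : 0 < Real.log 16 := Real.log_pos (by norm_num)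
    have hNpos : (0 : ℝ) < N := by
      have : 0 < N := by omega
      exact_mod_cast this
    have hlz : ((N : ℝ)) * Real.log 16 / ε ≤ Real.log z := by
      rw [Real.le_log_iff_exp_le (by exact_mod_cast (by omega : 0 < z))]
      exact hz0.trans (by exact_mod_cast hzz0)
    have h1 : (t : ℝ) * Real.log z ≤ N * Real.log X := by
      have h2 : (z : ℝ) ^ t ≤ (X : ℝ) ^ N := by
        have h3 : z ^ t ≤ X ^ N := hT2.trans (Nat.pow_le_pow_right hX (by omega))
        exact_mod_cast h3
      have h4 := Real.log_le_log (by positivity) h2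
      rwa [Real.log_pow, Real.log_pow] at h4
    have h5 : (t : ℝ) * (N * Real.log 16 / ε) ≤ N * Real.log X :=
      le_trans (mul_le_mul_of_nonneg_left hlz (Nat.cast_nonneg _)) h1
    have h6 : (t : ℝ) * Real.log 16 ≤ ε * Real.log X := by
      have h7 : (t : ℝ) * (N * Real.log 16 / ε) = N * (t * Real.log 16 / ε) := by ring
      rw [h7] at h5
      have h8 := le_of_mul_le_mul_left h5 hNpos
      rw [div_le_iff₀ hε] at h8
      linarith
    rw [← Real.exp_log (show (0 : ℝ) < 16 ^ t by positivity), Real.rpow_def_of_pos hX0,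
      Real.log_pow]
    apply Real.exp_le_exp.2
    linarith
  have hfin : (2 : ℕ) ^ Module.finrank ℤ (EAB (FV c a x 0) (FV c a x 1)).toAffine.Point ≤
      4 ^ (z + 2) * 4 ^ (D * Fintype.card J) * 16 ^ t := by
    refine hR.trans ?_
    rw [pow_one, mul_assoc]
    exact Nat.mul_le_mul_left _ h16
  have hfinR : (2 : ℝ) ^ Module.finrank ℤ (EAB (FV c a x 0) (FV c a x 1)).toAffine.Point ≤
      4 ^ (z + 2) * 4 ^ (D * Fintype.card J) * 16 ^ t := by exact_mod_cast hfin
  refine hfinR.trans ?_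
  exact mul_le_mul_of_nonneg_left hlog (by positivity)

end Pool.Agent.L7h97.RP
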