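import Pool.Agent.L7h19.RP.Stm7

/-!
# Project RP (helper19): few small values
-/

set_option autoImplicit false

namespace Pool.Agent.L7h97.RP

open Finset Polynomial Pool.Agent.L7h19.RP

theorem few_one (g : ℤ[X]) (hg : 0 < g.natDegree) (X B : ℕ) (U0 : ℤ) :
    ((Icc 1 X).filter (fun q : ℕ => (g.eval (U0 + (q : ℤ))).natAbs ≤ B)).card ≤
      g.natDegree * (2 * B + 1) := by
  classical
  set S := (Icc 1 X).filter (fun q : ℕ => (g.eval (U0 + (q : ℤ))).natAbs ≤ B) with hS
  set T : Finset ℤ := (Icc (-(B : ℤ)) B).biUnion (fun v => (g - C v).roots.toFinset) with hT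
  have h1 : S.card ≤ T.card := by
    apply Finset.card_le_card_of_injOn (fun q : ℕ => U0 + (q : ℤ))
    · intro q hq
      rw [mem_coe, hS, mem_filter] at hq
      rw [mem_coe, hT, mem_biUnion]
      refine ⟨g.eval (U0 + (q : ℤ)), ?_, ?_⟩
      · rw [mem_Icc]
        have := hq.2
        omega
      · rw [Multiset.mem_toFinset, mem_roots']
        refine ⟨?_, by simp [IsRoot]⟩
        intro h0
        have h2 : g = C (g.eval (U0 + (q : ℤ))) := sub_eq_zero.1 h0
        rw [h2, natDegree_C] at hg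
        exact lt_irrefl _ hg
    · intro q _ q' _ h
      simp only [add_right_inj, Nat.cast_inj] at h
      exact h
  refine h1.trans ((card_biUnion_le).trans ?_)
  have h2 : ∀ v ∈ Icc (-(B : ℤ)) B, ((g - C v).roots.toFinset).card ≤ g.natDegree := by
    intro v _
    refine (Multiset.toFinset_card_le _).trans ((card_roots' _).trans ?_)
    rw [natDegree_sub_C]
  refine (sum_le_card_nsmul _ _ _ h2).trans (le_of_eq ?_)
  rw [Int.card_Icc, smul_eq_mul, mul_comm]
  congr 1
  omega

theorem stFew : StFew := by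
  classical
  intro f hf X B U0 W0
  have h1 : ((Icc 1 X ×ˢ Icc 1 X).filter (fun q : ℕ × ℕ =>
      (hv f (U0 + (q.1 : ℤ)) (W0 + (q.2 : ℤ))).natAbs ≤ B)).card =
      ∑ w ∈ Icc 1 X, ((Icc 1 X).filter (fun q : ℕ =>
        (hv f (U0 + (q : ℤ)) (W0 + (w : ℤ))).natAbs ≤ B)).card := by
    rw [card_filter, sum_product_right]
    refine sum_congr rfl fun w _ => ?_
    rw [card_filter]
  rw [h1]
  calc ∑ w ∈ Icc 1 X, ((Icc 1 X).filter (fun q : ℕ =>
        (hv f (U0 + (q : ℤ)) (W0 + (w : ℤ))).natAbs ≤ B)).card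
      ≤ ∑ _w ∈ Icc 1 X, f.natDegree * (2 * B + 1) := by
        refine sum_le_sum fun w _ => ?_
        have h2 := few_one (f.scaleRoots (W0 + (w : ℤ))) (by rw [natDegree_scaleRoots]; exact hf)
          X B U0
        rw [natDegree_scaleRoots] at h2
        exact h2
    _ = X * (f.natDegree * (2 * B + 1)) := by
        rw [sum_const, Nat.card_Icc, smul_eq_mul]
        congr 1

end Pool.Agent.L7h97.RP
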