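import Mathlib
import Pool.Agent.L7h19.RP.Stm8

/-!
# Project RP, statement StSq: squares in the function field of the curve `g = 0`
-/

set_option autoImplicit false

namespace Pool.Agent.L7h97.RP

open Polynomial Pool.Agent.L7h19.RP

/-- clearing denominators -/
lemma clear (f κ : ℤ[X]) (hf : Irreducible f) (hd : f.natDegree ≠ 0) (h : SqAt f κ) :
    ∃ (b : ℤ) (a : ℤ[X]), b ≠ 0 ∧ f ∣ C b ^ 2 * κ - a ^ 2 := by
  obtain ⟨r, hr⟩ := h
  obtain ⟨r0, rfl⟩ := AdjoinRoot.mk_surjective r
  rw [← map_mul, AdjoinRoot.mk_eq_mk] at hr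
  obtain ⟨b, hbm, hb⟩ := IsLocalization.integerNormalization_spec (nonZeroDivisors ℤ) r0
  set a := IsLocalization.integerNormalization (nonZeroDivisors ℤ) r0 with ha
  have hb0 : (b : ℤ) ≠ 0 := nonZeroDivisors.ne_zero hbm
  refine ⟨b, a, hb0, ?_⟩
  rw [IsPrimitive.Int.dvd_iff_map_cast_dvd_map_cast _ _ (hf.isPrimitive hd)]
  have h1 : (C ((b : ℤ)) ^ 2 * κ - a ^ 2).map (Int.castRingHom ℚ) =
      C (((b : ℤ) : ℚ)) ^ 2 * (κ.map (Int.castRingHom ℚ) - r0 * r0) := by
    have h2 : a.map (Int.castRingHom ℚ) = C (((b : ℤ) : ℚ)) * r0 := by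
      have h3 : a.map (Int.castRingHom ℚ) = a.map (algebraMap ℤ ℚ) := rfl
      rw [h3, hb]
      rw [Polynomial.C_mul']
      ext n
      simp
    rw [Polynomial.map_sub, Polynomial.map_mul, Polynomial.map_pow, Polynomial.map_pow, h2,
      Polynomial.map_C]
    simp only [Int.coe_castRingHom]
    ring
  rw [h1]
  exact hr.mul_left _

theorem stSq : StSq := by
  intro m g F d D hg hF hd hi hm hD hSq
  set f := dh m g with hf
  set κ := dh m F with hκ
  have hfd : f.natDegree = d := natDegree_dh hg hm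
  have hfi : Irreducible f := irr_dh hg hm hd hi
  have hκd : κ.natDegree ≤ D := natDegree_dh_le m hF
  obtain ⟨b, a, hb, c, hc⟩ := clear f κ hfi (by omega) hSq
  obtain ⟨D', rfl⟩ := hD
  set N := c.natDegree + a.natDegree + d with hN
  set n := 2 * N + (D' + D') - d with hn
  have hcn : c.natDegree ≤ n := by omega
  have haN : a.natDegree ≤ N + D' := by omega
  have hdn : d + n = (N + N) + (D' + D') := by omega
  have h1 : ((C b : ℤ[X]).homogenize N) ^ 2 * sb1 m F - (a.homogenize (N + D')) ^ 2 =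
      sb1 m g * c.homogenize n := by
    rw [← homog_dh m hF, ← homog_dh m hg, ← homogenize_mul _ _ hfd.le hcn, ← hc, hdn,
      homogenize_sub, pow_two, ← homogenize_mul _ _ (by simp) (by simp),
      ← homogenize_mul _ _ (by
        refine natDegree_mul_le.trans ?_
        simp) hκd, pow_two (homogenize a _), ← homogenize_mul _ _ haN haN, pow_two, pow_two]
    congr 2
    omega
  refine ⟨(sbE m).symm (a.homogenize (N + D')), (sbE m).symm ((C b : ℤ[X]).homogenize N), ?_, ?_⟩
  · intro h
    have h2 := map_dvd (sbE m) h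
    rw [AlgEquiv.apply_symm_apply, sbE_apply] at h2
    have h3 := map_dvd (MvPolynomial.aeval ![(X : ℤ[X]), 1]) h2
    rw [aeval_homogenize_X_one _ (by simp)] at h3
    change f ∣ C b at h3
    have h4 := natDegree_le_of_dvd h3 (C_ne_zero.2 hb)
    rw [natDegree_C] at h4
    omega
  · have h2 : sbE m g ∣ sbE m ((sbE m).symm ((C b : ℤ[X]).homogenize N) ^ 2 * F -
        (sbE m).symm (a.homogenize (N + D')) ^ 2) := by
      rw [map_sub, map_mul, map_pow, map_pow, AlgEquiv.apply_symm_apply,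
        AlgEquiv.apply_symm_apply, sbE_apply, sbE_apply, h1]
      exact dvd_mul_right _ _
    exact (map_dvd_iff (sbE m)).1 h2

end Pool.Agent.L7h97.RP
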